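import Mathlib

/-!
A counterexample to the conjectured value of the Turan number of the directed path.
On 60 vertices, take a bidirected clique on 10 vertices, send all arcs from it to the other
50 vertices, and put a transitive Turan digraph with 10 classes of size 5 on these 50 vertices.
A longest directed path has 20 vertices, and there are 1715 arcs, while the transitive Turan
digraph with 20 classes has only 1710 arcs.
-/

namespace Pool.Agent.Results.MP_81ec8a_co.Counterexample

/-- The number `a(D)` of arcs of a digraph. -/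
noncomputable def arcs {n : ℕ} (D : Digraph (Fin n)) : ℕ :=
  {p : Fin n × Fin n | D.Adj p.1 p.2}.ncard

/-- `D` contains no directed path on `m` distinct vertices. -/
def PathFree {n : ℕ} (m : ℕ) (D : Digraph (Fin n)) : Prop :=
  ¬ ∃ v : Fin m → Fin n, Function.Injective v ∧
    ∀ i j : Fin m, (j : ℕ) = (i : ℕ) + 1 → D.Adj (v i) (v j)

/-- `T` is a transitive Turan digraph with `k` classes: the vertices are split into classes
`c⁻¹(0), ..., c⁻¹(k-1)` whose sizes differ by at most one, and `(u, v)` is an arc exactly when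
the class of `u` comes before the class of `v`. -/
def IsTuran {n : ℕ} (k : ℕ) (T : Digraph (Fin n)) : Prop :=
  ∃ c : Fin n → Fin k, (∀ i j : Fin k, (c ⁻¹' {i}).ncard ≤ (c ⁻¹' {j}).ncard + 1) ∧
    ∀ u v, T.Adj u v ↔ c u < c v

/-- class of a vertex in the example -/
def cls (u : Fin 60) : ℕ := if u.val < 10 then u.val else 8 + u.val / 5

/-- the example -/
def ex : Digraph (Fin 60) where
  Adj u v := (u.val < 10 ∧ v.val < 10 ∧ u ≠ v) ∨ (10 ≤ v.val ∧ cls u < cls v)

instance : DecidableRel ex.Adj := fun u v =>
  inferInstanceAs (Decidable ((u.val < 10 ∧ v.val < 10 ∧ u ≠ v) ∨ (10 ≤ v.val ∧ cls u < cls v)))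

theorem arcs_eq {n : ℕ} (D : Digraph (Fin n)) [DecidableRel D.Adj] :
    arcs D = (Finset.univ.filter fun p : Fin n × Fin n => D.Adj p.1 p.2).card := by
  unfold arcs
  rw [← Set.ncard_coe_finset]
  congr 1
  ext p
  simp

theorem arcs_ex : arcs ex = 1715 := by
  rw [arcs_eq]
  decide +kernel

theorem ex_loopless (v : Fin 60) : ¬ ex.Adj v v := by
  rintro (⟨_, _, h⟩ | ⟨_, h⟩)
  · exact h rfl
  · exact lt_irrefl _ h

/-- level of a vertex -/
def lvl (u : Fin 60) : ℕ := if u.val < 10 then 0 else cls u

theorem lvl_adj {u v : Fin 60} (h : ex.Adj u v) :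
    lvl u ≤ lvl v ∧ (10 ≤ v.val → lvl u < lvl v) := by
  rcases h with ⟨h1, h2, _⟩ | ⟨h1, h2⟩
  · simp only [lvl, h1, h2, if_true]
    omega
  · simp only [lvl, cls] at h2 ⊢
    split_ifs at h2 ⊢ <;> omega

theorem ex_pathFree : PathFree 21 ex := by
  rintro ⟨v, hinj, hadj⟩
  have hmono : Monotone fun i => lvl (v i) := by
    rw [Fin.monotone_iff_le_succ]
    intro i
    exact (lvl_adj (hadj i.castSucc i.succ (by simp))).1
  have hlt : ∀ i j : Fin 21, i < j → cls (v i) ≠ cls (v j) := by
    intro i j hij
    have hne : v i ≠ v j := fun h => (ne_of_lt hij) (hinj h)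
    have hne' : (v i).val ≠ (v j).val := fun h => hne (Fin.ext h)
    have hj0 : 0 < j.val := lt_of_le_of_lt (Nat.zero_le _) hij
    let j' : Fin 21 := ⟨j.val - 1, by omega⟩
    have h1 : lvl (v i) ≤ lvl (v j') := hmono (show i.val ≤ j.val - 1 by
      have : i.val < j.val := hij
      omega)
    have h2 := lvl_adj (hadj j' j (by simp only [j']; omega))
    have h3 : lvl (v i) ≤ lvl (v j) ∧ (10 ≤ (v j).val → lvl (v i) < lvl (v j)) :=
      ⟨h1.trans h2.1, fun h => h1.trans_lt (h2.2 h)⟩
    simp only [lvl, cls] at h3 ⊢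
    split_ifs at h3 ⊢ <;> omega
  have hb : ∀ u : Fin 60, cls u < 20 := by
    intro u
    have := u.2
    simp only [cls]
    split_ifs <;> omega
  have hinj2 : Function.Injective fun i : Fin 21 => (⟨cls (v i), hb _⟩ : Fin 20) := by
    intro i j h
    have h' : cls (v i) = cls (v j) := congrArg Fin.val h
    rcases lt_trichotomy i j with hij | hij | hij
    · exact absurd h' (hlt i j hij)
    · exact hij
    · exact absurd h'.symm (hlt j i hij)
  have := Fintype.card_le_of_injective _ hinj2
  simp at this

theorem turan_le {n k : ℕ} {T : Digraph (Fin n)} (hT : IsTuran k T) :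
    k * (2 * arcs T) + n ^ 2 ≤ k * n ^ 2 := by
  classical
  obtain ⟨c, -, hc⟩ := hT
  rw [arcs_eq]
  simp only [hc]
  set A := Finset.univ.filter fun p : Fin n × Fin n => c p.1 < c p.2 with hA
  set B := Finset.univ.filter fun p : Fin n × Fin n => c p.2 < c p.1 with hB
  set E := Finset.univ.filter fun p : Fin n × Fin n => c p.1 = c p.2 with hE
  have hAB : A.card = B.card := by
    apply Finset.card_bij (fun p _ => p.swap)
    · intro p hp
      simpa [hA, hB] using hp
    · intro p _ q _ h
      exact Prod.swap_injective h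
    · intro p hp
      exact ⟨p.swap, by simpa [hA, hB] using hp, by simp⟩
  have hd1 : Disjoint A B := by
    rw [Finset.disjoint_left]
    intro p h1 h2
    simp only [hA, hB, Finset.mem_filter, Finset.mem_univ, true_and] at h1 h2
    exact lt_asymm h1 h2
  have hd2 : Disjoint (A ∪ B) E := by
    rw [Finset.disjoint_left]
    intro p h1 h2
    simp only [hA, hB, hE, Finset.mem_union, Finset.mem_filter, Finset.mem_univ, true_and] at h1 h2
    rcases h1 with h1 | h1
    · exact absurd h2 (ne_of_lt h1)
    · exact absurd h2.symm (ne_of_lt h1)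
  have hsum : A.card + B.card + E.card ≤ n ^ 2 := by
    rw [← Finset.card_union_of_disjoint hd1, ← Finset.card_union_of_disjoint hd2]
    have := Finset.card_le_univ (A ∪ B ∪ E)
    simpa [sq] using this
  have hEc : E.card = ∑ i : Fin k, (Finset.univ.filter fun u => c u = i).card ^ 2 := by
    rw [Finset.card_eq_sum_card_fiberwise (f := fun p : Fin n × Fin n => c p.1)
      (t := Finset.univ) (by intro p _; simp)]
    apply Finset.sum_congr rfl
    intro i _
    rw [sq, ← Finset.card_product]
    congr 1
    ext p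
    simp only [hE, Finset.mem_filter, Finset.mem_univ, true_and, Finset.mem_product]
    constructor
    · rintro ⟨h1, h2⟩
      exact ⟨h2, h1 ▸ h2⟩
    · rintro ⟨h1, h2⟩
      exact ⟨h1.trans h2.symm, h1⟩
  have hn : ∑ i : Fin k, (Finset.univ.filter fun u => c u = i).card = n := by
    rw [← Finset.card_eq_sum_card_fiberwise (f := c) (s := Finset.univ) (t := Finset.univ)
      (by intro p _; simp)]
    simp
  have hcs := sq_sum_le_card_mul_sum_sq (s := (Finset.univ : Finset (Fin k)))
    (f := fun i => (Finset.univ.filter fun u => c u = i).card)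
  rw [hn, ← hEc] at hcs
  simp only [Finset.card_univ, Fintype.card_fin] at hcs
  have h2 : 2 * A.card + E.card ≤ n ^ 2 := by omega
  have h3 := Nat.mul_le_mul_left k h2
  rw [mul_add] at h3
  exact le_trans (Nat.add_le_add_left (by simpa using hcs) _) h3

theorem turan_exists : ∃ T : Digraph (Fin 60), IsTuran 20 T := by
  let c : Fin 60 → Fin 20 := fun u => ⟨u.val / 3, by have := u.2; omega⟩
  refine ⟨⟨fun u v => c u < c v⟩, c, ?_, fun _ _ => Iff.rfl⟩
  have h : ∀ i : Fin 20, (c ⁻¹' {i}).ncard = (Finset.univ.filter fun u => c u = i).card := by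
    intro i
    rw [← Set.ncard_coe_finset]
    congr 1
    ext u
    simp
  have h3 : ∀ i : Fin 20, (Finset.univ.filter fun u => c u = i).card = 3 := by
    decide +kernel
  intro i j
  rw [h, h, h3, h3]
  omega

/-- There are `k ≥ 1`, `n ≥ 3k` and a loopless digraph on `n` vertices with no directed path on
`k + 1` vertices that has more arcs than every transitive Turan digraph with `k` classes. -/
theorem result : ∃ k n : ℕ, 1 ≤ k ∧ 3 * k ≤ n ∧
    ∃ D : Digraph (Fin n), (∀ v, ¬ D.Adj v v) ∧ PathFree (k + 1) D ∧
      (∃ T : Digraph (Fin n), IsTuran k T) ∧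
      ∀ T : Digraph (Fin n), IsTuran k T → arcs T < arcs D := by
  refine ⟨20, 60, by norm_num, by norm_num, ex, ex_loopless, ex_pathFree, turan_exists, ?_⟩
  intro T hT
  have := turan_le hT
  rw [arcs_ex]
  omega

end Pool.Agent.Results.MP_81ec8a_co.Counterexample
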